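import Pool.Agent.W787.KG.Defs

open MeasureTheory Set Metric Filter Topology Real Pool.Agent.W787.KG

noncomputable section

namespace Pool.Agent.W298.KG.Ei

/-- the truncated kernel -/
def k1 (r : ℝ) : ℝ := if r < 1 then 1 / r else 0

theorem k1_int : Integrable (fun z : E => k1 ‖z‖) := by
  rw [integrable_fun_norm_addHaar (μ := (volume : Measure E)) (f := k1)]
  have hdim : Module.finrank ℝ E = 3 := by simp
  rw [hdim]
  have h1 : IntegrableOn (fun y : ℝ => y) (Ioo (0 : ℝ) 1) :=
    (continuous_id.integrableOn_Icc (a := (0 : ℝ)) (b := 1)).mono_set Ioo_subset_Icc_self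
  have h2 : IntegrableOn ((Ioo (0 : ℝ) 1).indicator (fun y : ℝ => y)) (Ioi (0 : ℝ)) :=
    ((integrable_indicator_iff measurableSet_Ioo).mpr h1).integrableOn
  refine h2.congr_fun ?_ measurableSet_Ioi
  intro y hy
  have hy0 : (0 : ℝ) < y := hy
  simp only [k1]
  by_cases h : y < 1
  · rw [indicator_of_mem (show y ∈ Ioo (0 : ℝ) 1 from ⟨hy0, h⟩), if_pos h]
    simp only [smul_eq_mul]
    field_simp
  · rw [indicator_of_notMem (fun hh => h hh.2), if_neg h]
    simp

theorem k1_nonneg (r : ℝ) (hr : 0 ≤ r) : 0 ≤ k1 r := by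
  unfold k1
  split_ifs
  · positivity
  · exact le_refl _

theorem inv_le (r : ℝ) (_hr : 0 ≤ r) : 1 / r ≤ k1 r + 1 := by
  unfold k1
  split_ifs with h
  · linarith
  · push Not at h
    rw [zero_add]
    rw [div_le_one (by linarith)]
    exact h

theorem ei (h : S_DA2) : S_EI := by
  intro A L hA hL
  obtain ⟨hcont, hpos, ⟨B, hB⟩, hint, -, -⟩ := h A L hA hL
  set n : E → ℝ := n0 A L with hn
  have hB0 : 0 ≤ B := (hpos 0).trans (hB 0)
  have hdom : ∀ x y : E, n y / ‖x - y‖ ≤ B * k1 ‖x - y‖ + n y := by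
    intro x y
    have h0 := hpos y
    have h1 := hB y
    have h2 := inv_le ‖x - y‖ (norm_nonneg _)
    have h3 := k1_nonneg ‖x - y‖ (norm_nonneg _)
    calc n y / ‖x - y‖ = n y * (1 / ‖x - y‖) := by ring
      _ ≤ n y * (k1 ‖x - y‖ + 1) := mul_le_mul_of_nonneg_left h2 h0
      _ = n y * k1 ‖x - y‖ + n y := by ring
      _ ≤ B * k1 ‖x - y‖ + n y := by nlinarith
  have hk : ∀ x : E, Integrable (fun y : E => k1 ‖x - y‖) := fun x =>
    k1_int.comp_sub_left x
  have hkint : ∀ x : E, ∫ y : E, k1 ‖x - y‖ = ∫ z : E, k1 ‖z‖ := fun x =>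
    integral_sub_left_eq_self (fun z : E => k1 ‖z‖) volume x
  have hbd : ∀ x : E, Integrable (fun y : E => B * k1 ‖x - y‖ + n y) := fun x =>
    ((hk x).const_mul B).add hint
  have hmeas2 : Measurable (fun z : E × E => n z.1 * n z.2 / ‖z.1 - z.2‖) := by
    apply Measurable.div
    · exact (hcont.measurable.comp measurable_fst).mul (hcont.measurable.comp measurable_snd)
    · exact (measurable_fst.sub measurable_snd).norm
  have hmeas1 : ∀ x : E, Measurable (fun y : E => n y / ‖x - y‖) := by
    intro x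
    apply Measurable.div hcont.measurable
    exact (measurable_const.sub measurable_id).norm
  have hI1 : ∀ x : E, Integrable (fun y : E => n y / ‖x - y‖) := by
    intro x
    refine (hbd x).mono' (hmeas1 x).aestronglyMeasurable (Eventually.of_forall fun y => ?_)
    rw [Real.norm_of_nonneg (div_nonneg (hpos y) (norm_nonneg _))]
    exact hdom x y
  set M : ℝ := B * (∫ z : E, k1 ‖z‖) + ∫ y, n y with hM
  have hg : ∀ x : E, (∫ y, n y / ‖x - y‖) ≤ M := by
    intro x
    calc (∫ y, n y / ‖x - y‖) ≤ ∫ y, (B * k1 ‖x - y‖ + n y) :=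
          integral_mono (hI1 x) (hbd x) (hdom x)
      _ = M := by
          rw [integral_add ((hk x).const_mul B) hint, integral_const_mul, hkint]
  have hg0 : ∀ x : E, 0 ≤ ∫ y, n y / ‖x - y‖ := fun x =>
    integral_nonneg fun y => div_nonneg (hpos y) (norm_nonneg _)
  have hfac : ∀ x : E, (fun y : E => n x * n y / ‖x - y‖) = fun y => n x * (n y / ‖x - y‖) := by
    intro x
    funext y
    ring
  refine ⟨fun x => ?_, ?_⟩
  · rw [hfac]
    exact (hI1 x).const_mul (n x)
  · have hsm : StronglyMeasurable (fun x : E => ∫ y, n x * n y / ‖x - y‖) := by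
      have := (hmeas2.stronglyMeasurable).integral_prod_right' (ν := (volume : Measure E))
      exact this
    refine (hint.mul_const M).mono' hsm.aestronglyMeasurable (Eventually.of_forall fun x => ?_)
    rw [hfac, integral_const_mul, Real.norm_of_nonneg (mul_nonneg (hpos x) (hg0 x))]
    exact mul_le_mul_of_nonneg_left (hg x) (hpos x)

end Pool.Agent.W298.KG.Ei
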